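import Pool.Agent.Helper20.EX3.Statements
import Pool.Agent.Helper62.EX.TB

/-!
# MP_2857a5_co : module META, greedy embedding and Hall's theorem
-/

set_option autoImplicit false

open Finset
open scoped Classical

namespace OT

noncomputable section

/-- Separated sets of given size in every class. -/
theorem metA_sep {n : ℕ} (T : PTree n) {Δ : ℕ} (hT : T.Deg Δ) {I : Type} [Fintype I]
    (κ : Fin n → I) (P : Finset (Fin n)) (φ : ℕ)
    (hC : ∀ k, Fintype.card I * φ * (Δ + 2) ^ 2 <
      (univ.filter fun y => y ∉ P ∧ κ y = k).card) :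
    ∃ F : Finset (Fin n), (∀ a ∈ F, a ∉ P) ∧ (∀ a ∈ F, ∀ b ∈ F, a ≠ b → b ∉ T.ball 2 a) ∧
      ∀ k, (F.filter fun y => κ y = k).card = φ := by
  let S : Finset (Finset (Fin n)) := univ.filter fun F =>
    (∀ a ∈ F, a ∉ P) ∧ (∀ a ∈ F, ∀ b ∈ F, a ≠ b → b ∉ T.ball 2 a) ∧
      ∀ k, (F.filter fun y => κ y = k).card ≤ φ
  have hne : S.Nonempty := ⟨∅, by simp [S]⟩
  obtain ⟨F, hF, hmax⟩ := S.exists_max_image Finset.card hne
  have hmem : ∀ G : Finset (Fin n), G ∈ S ↔ (∀ a ∈ G, a ∉ P) ∧
      (∀ a ∈ G, ∀ b ∈ G, a ≠ b → b ∉ T.ball 2 a) ∧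
      ∀ k, (G.filter fun y => κ y = k).card ≤ φ := by
    intro G
    simp only [S, mem_filter, mem_univ, true_and]
  obtain ⟨h1, h2, h3⟩ := (hmem F).1 hF
  refine ⟨F, h1, h2, fun k => ?_⟩
  by_contra hk
  have hk' : (F.filter fun y => κ y = k).card < φ := lt_of_le_of_ne (h3 k) hk
  have hcF : F.card ≤ φ * Fintype.card I := by
    have := Finset.card_le_mul_card_image_of_maps_to (s := F) (t := (univ : Finset I)) (f := κ)
      (fun a _ => mem_univ _) φ (fun b _ => h3 b)
    simpa using this
  have hB : (F.biUnion (T.ball 2)).card ≤ F.card * (Δ + 2) ^ 2 :=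
    Finset.card_biUnion_le_card_mul _ _ _ (fun u _ => T.card_ball hT 2 u)
  have hlt : (F.biUnion (T.ball 2)).card < (univ.filter fun y => y ∉ P ∧ κ y = k).card := by
    refine lt_of_le_of_lt (hB.trans ?_) (hC k)
    calc F.card * (Δ + 2) ^ 2 ≤ (φ * Fintype.card I) * (Δ + 2) ^ 2 := Nat.mul_le_mul_right _ hcF
      _ = _ := by ring
  obtain ⟨y, hy, hyn⟩ := Finset.exists_mem_notMem_of_card_lt_card hlt
  rw [mem_filter] at hy
  obtain ⟨_, hyP, hyk⟩ := hy
  have hyb : ∀ a ∈ F, y ∉ T.ball 2 a := fun a ha hya => hyn (mem_biUnion.2 ⟨a, ha, hya⟩)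
  have hyF : y ∉ F := fun h => hyb y h (T.self_mem_ball 2 y)
  have hin : insert y F ∈ S := by
    rw [hmem]
    refine ⟨?_, ?_, ?_⟩
    · intro a ha
      rcases mem_insert.1 ha with rfl | ha
      · exact hyP
      · exact h1 a ha
    · intro a ha b hb hab
      rcases mem_insert.1 ha with hay | ha
      · rcases mem_insert.1 hb with hby | hb
        · exact absurd (hay.trans hby.symm) hab
        · rw [hay]
          exact fun h => hyb b hb (PTree.mem_ball_comm.1 h)
      · rcases mem_insert.1 hb with hby | hb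
        · rw [hby]
          exact hyb a ha
        · exact h2 a ha b hb hab
    · intro l
      rw [filter_insert]
      split_ifs with hl
      · have : k = l := hyk.symm.trans hl
        subst this
        exact (card_insert_le _ _).trans hk'
      · exact h3 l
  have := hmax _ hin
  rw [card_insert_of_notMem hyF] at this
  omega

variable {n : ℕ} {V : Type} [Fintype V]

/-- The vertices of `X` which are not compatible, as images of `y`, with the image `a` of `x`. -/
def metAMiss (T : PTree n) (D : V → V → Prop) (X : Finset V) (x y : Fin n) (a : V) : Finset V :=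
  X.filter fun v => ¬ ((T.Arc x y → D a v) ∧ (T.Arc y x → D v a))

theorem metA_nb_of_arc {T : PTree n} {x y : Fin n} (h : T.Arc x y) : T.Nb x y := by
  rcases h with ⟨h0, hp, _⟩ | ⟨h0, hp, _⟩
  · exact Or.inl ⟨h0, hp⟩
  · exact Or.inr ⟨h0, hp⟩

theorem metA_miss_card {T : PTree n} {D : V → V → Prop} {I : Type} {W : I → Finset V}
    {Rel : I → I → Prop} {η : ℝ} (hη : 0 ≤ η)
    (hR1 : ∀ k l, Rel k l → ∀ w ∈ W k, ((W l \ adjN D true w).card : ℝ) ≤ η * (n : ℝ))
    (hR2 : ∀ k l, Rel k l → ∀ w ∈ W l, ((W k \ adjN D false w).card : ℝ) ≤ η * (n : ℝ))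
    {x y : Fin n} {k l : I} (hxy : T.Arc x y → Rel k l) (hyx : T.Arc y x → Rel l k) {a : V}
    (ha : a ∈ W k) : ((metAMiss T D (W l) x y a).card : ℝ) ≤ 2 * η * (n : ℝ) := by
  have hsub : metAMiss T D (W l) x y a ⊆
      (if T.Arc x y then W l \ adjN D true a else ∅) ∪
      (if T.Arc y x then W l \ adjN D false a else ∅) := by
    intro v hv
    unfold metAMiss at hv
    rw [mem_filter] at hv
    obtain ⟨hvl, hv⟩ := hv
    rw [not_and_or] at hv
    rcases hv with hv | hv
    · rw [Classical.not_imp] at hv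
      apply mem_union_left
      rw [if_pos hv.1, mem_sdiff]
      refine ⟨hvl, fun h => hv.2 ?_⟩
      unfold adjN at h
      rw [mem_filter] at h
      simpa [Adj] using h.2
    · rw [Classical.not_imp] at hv
      apply mem_union_right
      rw [if_pos hv.1, mem_sdiff]
      refine ⟨hvl, fun h => hv.2 ?_⟩
      unfold adjN at h
      rw [mem_filter] at h
      simpa [Adj] using h.2
  have h1 : (((if T.Arc x y then W l \ adjN D true a else ∅ : Finset V)).card : ℝ) ≤
      η * (n : ℝ) := by
    split_ifs with h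
    · exact hR1 k l (hxy h) a ha
    · simp; positivity
  have h2 : (((if T.Arc y x then W l \ adjN D false a else ∅ : Finset V)).card : ℝ) ≤
      η * (n : ℝ) := by
    split_ifs with h
    · exact hR2 l k (hyx h) a ha
    · simp; positivity
  have h3 : ((metAMiss T D (W l) x y a).card : ℝ) ≤
      (((if T.Arc x y then W l \ adjN D true a else ∅ : Finset V)).card : ℝ) +
      (((if T.Arc y x then W l \ adjN D false a else ∅ : Finset V)).card : ℝ) := by
    exact_mod_cast (card_le_card hsub).trans (card_union_le _ _)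
  linarith

/-- The greedy step. -/
theorem metA_greedy {T : PTree n} {Δ : ℕ} (hT : T.Deg Δ) {D : V → V → Prop} {I : Type}
    {W : I → Finset V} (hW : ∀ k l, k ≠ l → Disjoint (W k) (W l))
    {Rel : I → I → Prop} {η : ℝ} (hη : 0 ≤ η)
    (hR1 : ∀ k l, Rel k l → ∀ w ∈ W k, ((W l \ adjN D true w).card : ℝ) ≤ η * (n : ℝ))
    (hR2 : ∀ k l, Rel k l → ∀ w ∈ W l, ((W k \ adjN D false w).card : ℝ) ≤ η * (n : ℝ))
    {Sp P F : Finset (Fin n)} {f : Fin n → V} {κ : Fin n → I} (hSP : Sp ⊆ P)
    (hf : Set.InjOn f P) (hfa : ∀ x ∈ P, ∀ y ∈ P, T.Arc x y → D (f x) (f y))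
    (hfW : ∀ x ∈ P, x ∉ Sp → f x ∈ W (κ x)) (hSpN : ∀ x ∈ Sp, ∀ y, T.Nb x y → y ∈ P)
    (hRel : ∀ x y, T.Arc x y → x ∉ Sp → y ∉ Sp → Rel (κ x) (κ y))
    (hcount : ∀ k, (univ.filter fun y => y ∉ P ∧ κ y = k).card = (W k \ P.image f).card)
    (hloop : ∀ x, ¬ T.Arc x x)
    (φ : ℕ) (hφ : ∀ k, (F.filter fun y => κ y = k).card = φ)
    (hbig : ((Δ : ℝ) + 2) * (2 * η * (n : ℝ)) < (φ : ℝ)) (R : Finset (Fin n)) :
    (∀ x ∈ R, x ∉ P) → (∀ x ∈ R, x ∉ F) → (∀ x ∈ F, x ∉ P) →
    ∃ g : Fin n → V, Set.InjOn g (P ∪ R : Finset (Fin n)) ∧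
      (∀ x ∈ P ∪ R, ∀ y ∈ P ∪ R, T.Arc x y → D (g x) (g y)) ∧
      (∀ x ∈ P ∪ R, x ∉ Sp → g x ∈ W (κ x)) ∧ (∀ x ∈ P, g x = f x) ∧
      ∀ k, (univ.filter fun y => y ∉ P ∪ R ∧ κ y = k).card = (W k \ (P ∪ R).image g).card := by
  induction R using Finset.induction_on with
  | empty =>
    intro _ _ _
    refine ⟨f, ?_, ?_, ?_, fun _ _ => rfl, ?_⟩
    · simpa using hf
    · simpa using hfa
    · simpa using hfW
    · simpa using hcount
  | insert y R hyR ih =>
    intro hRP hRF hFP
    obtain ⟨g, g1, g2, g3, g4, g5⟩ := ih (fun x hx => hRP x (mem_insert_of_mem hx))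
      (fun x hx => hRF x (mem_insert_of_mem hx)) hFP
    have hyP : y ∉ P := hRP y (mem_insert_self _ _)
    have hyF : y ∉ F := hRF y (mem_insert_self _ _)
    have hyQ : y ∉ P ∪ R := by
      rw [mem_union]
      exact fun h => h.elim hyP hyR
    have hySp : y ∉ Sp := fun h => hyP (hSP h)
    -- neighbours in `Q`
    have hnb : ∀ x ∈ P ∪ R, T.Nb x y → x ∉ Sp := fun x _ hxy hx => hyP (hSpN x hx y hxy)
    let Nx : Finset (Fin n) := (P ∪ R).filter fun x => T.Nb x y
    have hNx : Nx.card ≤ Δ + 2 := by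
      have h1 : Nx ⊆ T.ball 1 y := by
        intro x hx
        exact (mem_filter.1 hx).2.symm.mem_ball
      have h2 := T.card_ball hT 1 y
      rw [pow_one] at h2
      exact (card_le_card h1).trans h2
    let Bad : Finset V := Nx.biUnion fun x => metAMiss T D (W (κ y)) x y (g x)
    have hBad : (Bad.card : ℝ) < (φ : ℝ) := by
      refine lt_of_le_of_lt ?_ hbig
      have h1 : (Bad.card : ℝ) ≤ ∑ x ∈ Nx, ((metAMiss T D (W (κ y)) x y (g x)).card : ℝ) := by
        exact_mod_cast card_biUnion_le
      refine h1.trans ?_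
      have h2 : ∀ x ∈ Nx, ((metAMiss T D (W (κ y)) x y (g x)).card : ℝ) ≤ 2 * η * (n : ℝ) := by
        intro x hx
        obtain ⟨hxQ, hxy⟩ := mem_filter.1 hx
        have hxS := hnb x hxQ hxy
        exact metA_miss_card hη hR1 hR2 (fun h => hRel x y h hxS hySp)
          (fun h => hRel y x h hySp hxS) (g3 x hxQ hxS)
      refine (sum_le_card_nsmul _ _ _ h2).trans ?_
      rw [nsmul_eq_mul]
      have h3 : (Nx.card : ℝ) ≤ (Δ : ℝ) + 2 := by exact_mod_cast hNx
      exact mul_le_mul_of_nonneg_right h3 (by positivity)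
    have hU : (φ : ℝ) ≤ ((W (κ y) \ (P ∪ R).image g).card : ℝ) := by
      rw [← g5 (κ y), ← hφ (κ y)]
      norm_cast
      apply card_le_card
      intro x hx
      rw [mem_filter] at hx
      rw [mem_filter]
      refine ⟨mem_univ _, ?_, hx.2⟩
      rw [mem_union]
      exact fun h => h.elim (hFP x hx.1) (fun h => hRF x (mem_insert_of_mem h) hx.1)
    have hlt : Bad.card < (W (κ y) \ (P ∪ R).image g).card := by
      exact_mod_cast lt_of_lt_of_le hBad hU
    obtain ⟨v, hv, hvB⟩ := Finset.exists_mem_notMem_of_card_lt_card hlt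
    rw [mem_sdiff] at hv
    obtain ⟨hvW, hvQ⟩ := hv
    have hgood : ∀ x ∈ P ∪ R, (T.Arc x y → D (g x) v) ∧ (T.Arc y x → D v (g x)) := by
      intro x hx
      by_contra hcon
      apply hvB
      rw [mem_biUnion]
      refine ⟨x, ?_, ?_⟩
      · rw [mem_filter]
        refine ⟨hx, ?_⟩
        by_contra hn
        apply hcon
        exact ⟨fun h => absurd (metA_nb_of_arc h) hn,
          fun h => absurd (metA_nb_of_arc h).symm hn⟩
      · unfold metAMiss
        rw [mem_filter]
        exact ⟨hvW, hcon⟩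
    have hQ : P ∪ insert y R = insert y (P ∪ R) := by
      ext z
      simp only [mem_union, mem_insert]
      tauto
    have hup : ∀ x ∈ P ∪ R, Function.update g y v x = g x := by
      intro x hx
      rw [Function.update_of_ne]
      rintro rfl
      exact hyQ hx
    have himg : (insert y (P ∪ R)).image (Function.update g y v) =
        insert v ((P ∪ R).image g) := by
      rw [image_insert, Function.update_self]
      congr 1
      exact image_congr (fun x hx => hup x hx)
    refine ⟨Function.update g y v, ?_, ?_, ?_, ?_, ?_⟩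
    · rw [hQ, coe_insert, Set.injOn_insert (by exact_mod_cast hyQ)]
      refine ⟨?_, ?_⟩
      · intro a ha b hb hab
        rw [hup a ha, hup b hb] at hab
        exact g1 ha hb hab
      · rw [Function.update_self]
        rintro ⟨x, hx, hxv⟩
        rw [hup x hx] at hxv
        exact hvQ (mem_image.2 ⟨x, hx, hxv⟩)
    · rw [hQ]
      intro a ha b hb hab
      rcases mem_insert.1 ha with ha | ha
      · rcases mem_insert.1 hb with hb | hb
        · rw [ha, hb] at hab
          exact absurd hab (hloop y)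
        · rw [ha, Function.update_self, hup b hb]
          rw [ha] at hab
          exact (hgood b hb).2 hab
      · rcases mem_insert.1 hb with hb | hb
        · rw [hb, Function.update_self, hup a ha]
          rw [hb] at hab
          exact (hgood a ha).1 hab
        · rw [hup a ha, hup b hb]
          exact g2 a ha b hb hab
    · rw [hQ]
      intro a ha haS
      rcases mem_insert.1 ha with ha | ha
      · rw [ha, Function.update_self]
        exact hvW
      · rw [hup a ha]
        exact g3 a ha haS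
    · intro x hx
      rw [hup x (mem_union_left _ hx)]
      exact g4 x hx
    · intro k
      rw [hQ, himg]
      have e1 : (univ.filter fun z => z ∉ insert y (P ∪ R) ∧ κ z = k) =
          (univ.filter fun z => z ∉ P ∪ R ∧ κ z = k).erase y := by
        ext z
        simp only [mem_filter, mem_univ, true_and, mem_erase, mem_insert, not_or]
        tauto
      have e2 : W k \ insert v ((P ∪ R).image g) = (W k \ (P ∪ R).image g).erase v := by
        ext z
        simp only [mem_sdiff, mem_insert, mem_erase, not_or]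
        tauto
      rw [e1, e2]
      by_cases hk : κ y = k
      · rw [card_erase_of_mem, card_erase_of_mem, g5 k]
        · rw [mem_sdiff, ← hk]
          exact ⟨hvW, hvQ⟩
        · rw [mem_filter]
          exact ⟨mem_univ _, hyQ, hk⟩
      · rw [erase_eq_of_notMem, erase_eq_of_notMem, g5 k]
        · rw [mem_sdiff]
          intro h
          exact (Finset.disjoint_left.1 (hW _ _ hk)) hvW h.1
        · rw [mem_filter]
          exact fun h => hk h.2.2

/-- The last step: Hall's theorem in one class. -/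
theorem metA_hall {T : PTree n} {Δ : ℕ} (hT : T.Deg Δ) {D : V → V → Prop} {I : Type} [Fintype I]
    {W : I → Finset V}
    {Rel : I → I → Prop} {η : ℝ} (hη : 0 ≤ η)
    (hR1 : ∀ k l, Rel k l → ∀ w ∈ W k, ((W l \ adjN D true w).card : ℝ) ≤ η * (n : ℝ))
    (hR2 : ∀ k l, Rel k l → ∀ w ∈ W l, ((W k \ adjN D false w).card : ℝ) ≤ η * (n : ℝ))
    {Sp Q F : Finset (Fin n)} {g : Fin n → V} {κ : Fin n → I}
    (hQF : ∀ x, x ∈ Q ↔ x ∉ F) (hFS : ∀ x ∈ F, x ∉ Sp)
    (hg : Set.InjOn g Q) (hgW : ∀ x ∈ Q, x ∉ Sp → g x ∈ W (κ x))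
    (hSpN : ∀ x ∈ Sp, ∀ y, T.Nb x y → y ∉ F)
    (hRel : ∀ x y, T.Arc x y → x ∉ Sp → y ∉ Sp → Rel (κ x) (κ y))
    (hsep : ∀ a ∈ F, ∀ b ∈ F, a ≠ b → b ∉ T.ball 2 a) (φ : ℕ) (k : I)
    (hφ : (F.filter fun y => κ y = k).card = φ) (hU : (W k \ Q.image g).card = φ)
    (hb1 : 2 * (((Δ : ℝ) + 2) * (2 * η * (n : ℝ))) < (φ : ℝ))
    (hb2 : 2 * (2 * (Fintype.card I : ℝ) * η * (n : ℝ)) < (φ : ℝ)) :
    ∃ h : Fin n → V, (∀ x ∈ F, κ x = k → h x ∈ W k \ Q.image g ∧
      ∀ z ∈ Q, (T.Arc z x → D (g z) (h x)) ∧ (T.Arc x z → D (h x) (g z))) ∧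
      ∀ x ∈ F, ∀ y ∈ F, κ x = k → κ y = k → h x = h y → x = y := by
  let Fk : Finset (Fin n) := F.filter fun y => κ y = k
  let U : Finset V := W k \ Q.image g
  let t : {x // x ∈ Fk} → Finset V := fun x => U.filter fun v =>
    ∀ z ∈ Q, (T.Arc z x.1 → D (g z) v) ∧ (T.Arc x.1 z → D v (g z))
  have hFk : ∀ x : {x // x ∈ Fk}, x.1 ∈ F ∧ κ x.1 = k := fun x => mem_filter.1 x.2
  have hnS : ∀ x ∈ F, ∀ z, T.Nb z x → z ∉ Sp := fun x hx z hzx hz => hSpN z hz x hzx hx
  have hnQ : ∀ x ∈ F, ∀ z, T.Nb z x → z ≠ x → z ∈ Q := by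
    intro x hx z hzx hne
    rw [hQF]
    intro hz
    exact hsep x hx z hz (Ne.symm hne) (PTree.ball_mono T (by norm_num) x hzx.symm.mem_ball)
  have hall : ∀ s : Finset {x // x ∈ Fk}, s.card ≤ (s.biUnion t).card := by
    intro s
    rcases s.eq_empty_or_nonempty with rfl | ⟨x, hx⟩
    · simp
    have hscard : s.card ≤ φ := by
      rw [← hφ]
      have h1 := card_le_univ s
      rw [Fintype.card_coe] at h1
      exact h1
    by_cases hs : 2 * s.card ≤ φ
    · -- one element is enough
      have hsub : t x ⊆ s.biUnion t := subset_biUnion_of_mem t hx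
      refine le_trans ?_ (card_le_card hsub)
      let Nx : Finset (Fin n) := Q.filter fun z => T.Nb z x.1
      have hNx : Nx.card ≤ Δ + 2 := by
        have h1 : Nx ⊆ T.ball 1 x.1 := by
          intro z hz
          exact (mem_filter.1 hz).2.symm.mem_ball
        have h2 := T.card_ball hT 1 x.1
        rw [pow_one] at h2
        exact (card_le_card h1).trans h2
      let Bad : Finset V := Nx.biUnion fun z => metAMiss T D (W k) z x.1 (g z)
      have hBad : 2 * (Bad.card : ℝ) < (φ : ℝ) := by
        refine lt_of_le_of_lt ?_ hb1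
        have h1 : (Bad.card : ℝ) ≤ ∑ z ∈ Nx, ((metAMiss T D (W k) z x.1 (g z)).card : ℝ) := by
          exact_mod_cast card_biUnion_le
        have h2 : ∀ z ∈ Nx, ((metAMiss T D (W k) z x.1 (g z)).card : ℝ) ≤ 2 * η * (n : ℝ) := by
          intro z hz
          obtain ⟨hzQ, hzx⟩ := mem_filter.1 hz
          have hzS := hnS x.1 (hFk x).1 z hzx
          have hxS := hFS x.1 (hFk x).1
          refine metA_miss_card (k := κ z) hη hR1 hR2 (fun h => ?_) (fun h => ?_)
            (hgW z hzQ hzS)
          · rw [← (hFk x).2]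
            exact hRel z x.1 h hzS hxS
          · rw [← (hFk x).2]
            exact hRel x.1 z h hxS hzS
        have h3 : (Bad.card : ℝ) ≤ (Nx.card : ℝ) * (2 * η * (n : ℝ)) := by
          refine h1.trans ((sum_le_card_nsmul _ _ _ h2).trans ?_)
          rw [nsmul_eq_mul]
        have h4 : (Nx.card : ℝ) ≤ (Δ : ℝ) + 2 := by exact_mod_cast hNx
        have h5 : (Nx.card : ℝ) * (2 * η * (n : ℝ)) ≤ ((Δ : ℝ) + 2) * (2 * η * (n : ℝ)) :=
          mul_le_mul_of_nonneg_right h4 (by positivity)
        linarith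
      have hUsub : U \ Bad ⊆ t x := by
        intro v hv
        rw [mem_sdiff] at hv
        rw [mem_filter]
        refine ⟨hv.1, fun z hz => ?_⟩
        by_contra hcon
        apply hv.2
        rw [mem_biUnion]
        refine ⟨z, ?_, ?_⟩
        · rw [mem_filter]
          refine ⟨hz, ?_⟩
          by_contra hn
          apply hcon
          exact ⟨fun h => absurd (metA_nb_of_arc h) hn,
            fun h => absurd (metA_nb_of_arc h).symm hn⟩
        · unfold metAMiss
          rw [mem_filter]
          exact ⟨(mem_sdiff.1 hv.1).1, hcon⟩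
      have h6 : U.card ≤ (U \ Bad).card + Bad.card := by
        have := card_le_card_sdiff_add_card (s := U) (t := Bad)
        omega
      have h7 : 2 * Bad.card < φ := by exact_mod_cast hBad
      have h8 := card_le_card hUsub
      have h9 : U.card = φ := hU
      omega
    · -- every vertex of `U` is adjacent
      have hsub : U ⊆ s.biUnion t := by
        intro v hv
        by_contra hcon
        have hvk : v ∈ W k := (mem_sdiff.1 hv).1
        have hz : ∀ x : {x // x ∈ Fk}, x ∈ s → ∃ z ∈ Q,
            ¬ ((T.Arc z x.1 → D (g z) v) ∧ (T.Arc x.1 z → D v (g z))) := by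
          intro x hx
          by_contra hno
          push Not at hno
          apply hcon
          rw [mem_biUnion]
          refine ⟨x, hx, ?_⟩
          rw [mem_filter]
          exact ⟨hv, hno⟩
        have : Nonempty (Fin n) := ⟨x.1⟩
        choose! z hzQ hzn using hz
        let Y : Finset V := univ.biUnion fun l : I =>
          (if Rel l k then W l \ adjN D false v else ∅) ∪
          (if Rel k l then W l \ adjN D true v else ∅)
        have hY : (Y.card : ℝ) ≤ (Fintype.card I : ℝ) * (2 * η * (n : ℝ)) := by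
          have h1 : (Y.card : ℝ) ≤ ∑ l : I,
              (((if Rel l k then W l \ adjN D false v else ∅) ∪
                (if Rel k l then W l \ adjN D true v else ∅) : Finset V).card : ℝ) := by
            exact_mod_cast card_biUnion_le
          have h2 : ∀ l ∈ (univ : Finset I),
              (((if Rel l k then W l \ adjN D false v else ∅) ∪
                (if Rel k l then W l \ adjN D true v else ∅) : Finset V).card : ℝ) ≤
                2 * η * (n : ℝ) := by
            intro l _
            have h3 : (((if Rel l k then W l \ adjN D false v else ∅ : Finset V)).card : ℝ) ≤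
                η * (n : ℝ) := by
              split_ifs with h
              · exact hR2 l k h v hvk
              · simp; positivity
            have h4 : (((if Rel k l then W l \ adjN D true v else ∅ : Finset V)).card : ℝ) ≤
                η * (n : ℝ) := by
              split_ifs with h
              · exact hR1 k l h v hvk
              · simp; positivity
            have h5 : (((if Rel l k then W l \ adjN D false v else ∅) ∪
                (if Rel k l then W l \ adjN D true v else ∅) : Finset V).card : ℝ) ≤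
                (((if Rel l k then W l \ adjN D false v else ∅ : Finset V)).card : ℝ) +
                (((if Rel k l then W l \ adjN D true v else ∅ : Finset V)).card : ℝ) := by
              exact_mod_cast card_union_le _ _
            linarith
          refine h1.trans ((sum_le_card_nsmul _ _ _ h2).trans ?_)
          rw [nsmul_eq_mul, card_univ]
        have hfacts : ∀ x : {x // x ∈ Fk}, x ∈ s → T.Nb (z x) x.1 ∧ g (z x) ∈ Y := by
          intro x hx
          have h1 := hzn x hx
          have h2 : T.Nb (z x) x.1 := by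
            by_contra hn
            apply h1
            exact ⟨fun h => absurd (metA_nb_of_arc h) hn,
              fun h => absurd (metA_nb_of_arc h).symm hn⟩
          refine ⟨h2, ?_⟩
          have hzS := hnS x.1 (hFk x).1 _ h2
          have hxS := hFS x.1 (hFk x).1
          have hgz := hgW _ (hzQ x hx) hzS
          rw [mem_biUnion]
          refine ⟨κ (z x), mem_univ _, ?_⟩
          rw [not_and_or] at h1
          rcases h1 with h1 | h1
          · rw [Classical.not_imp] at h1
            apply mem_union_left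
            have hr : Rel (κ (z x)) k := by
              rw [← (hFk x).2]
              exact hRel _ _ h1.1 hzS hxS
            rw [if_pos hr, mem_sdiff]
            refine ⟨hgz, fun h => h1.2 ?_⟩
            unfold adjN at h
            rw [mem_filter] at h
            simpa [Adj] using h.2
          · rw [Classical.not_imp] at h1
            apply mem_union_right
            have hr : Rel k (κ (z x)) := by
              rw [← (hFk x).2]
              exact hRel _ _ h1.1 hxS hzS
            rw [if_pos hr, mem_sdiff]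
            refine ⟨hgz, fun h => h1.2 ?_⟩
            unfold adjN at h
            rw [mem_filter] at h
            simpa [Adj] using h.2
        have hcard : s.card ≤ Y.card := by
          refine card_le_card_of_injOn (fun x => g (z x)) (fun x hx => (hfacts x hx).2) ?_
          intro x hx y hy hxy
          have h1 : z x = z y := hg (hzQ x hx) (hzQ y hy) hxy
          by_contra hne
          have hne' : x.1 ≠ y.1 := fun h => hne (Subtype.ext h)
          have h2 := (hfacts x hx).1
          have h3 := (hfacts y hy).1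
          rw [← h1] at h3
          apply hsep x.1 (hFk x).1 y.1 (hFk y).1 hne'
          exact PTree.ball_trans (j := 1) (k := 1) h2.symm.mem_ball h3.mem_ball
        have h1 : (s.card : ℝ) ≤ (Y.card : ℝ) := by exact_mod_cast hcard
        have h2 : (φ : ℝ) < 2 * (s.card : ℝ) := by
          have hs' : φ < 2 * s.card := not_le.1 hs
          exact_mod_cast hs'
        nlinarith
      refine hscard.trans ?_
      rw [← hU]
      exact card_le_card hsub
  obtain ⟨h, hinj, hmem⟩ :=
    (Finset.all_card_le_biUnion_card_iff_exists_injective t).1 hall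
  by_cases hne : Nonempty V
  swap
  · refine ⟨g, ?_, ?_⟩
    · intro x hx hxk
      exact absurd ⟨g x⟩ hne
    · intro x hx y hy hxk hyk _
      exact absurd ⟨g x⟩ hne
  obtain ⟨v0⟩ := hne
  refine ⟨fun x => if hx : x ∈ Fk then h ⟨x, hx⟩ else v0, ?_, ?_⟩
  · intro x hx hxk
    have hxF : x ∈ Fk := mem_filter.2 ⟨hx, hxk⟩
    have h1 := hmem ⟨x, hxF⟩
    rw [mem_filter] at h1
    simp only [dif_pos hxF]
    exact h1
  · intro x hx y hy hxk hyk hxy
    have hxF : x ∈ Fk := mem_filter.2 ⟨hx, hxk⟩
    have hyF : y ∈ Fk := mem_filter.2 ⟨hy, hyk⟩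
    simp only [dif_pos hxF, dif_pos hyF] at hxy
    have := hinj hxy
    exact congrArg Subtype.val this

theorem metA_loop (T : PTree n) (x : Fin n) : ¬ T.Arc x x := by
  rintro (⟨h0, hp, _⟩ | ⟨h0, hp, _⟩)
  · have := T.lt x h0
    rw [hp] at this
    exact lt_irrefl _ this
  · have := T.lt x h0
    rw [hp] at this
    exact lt_irrefl _ this

theorem x3_metA : StMetA := by
  intro Δ ζ hζ I _
  set K : ℕ := Fintype.card I with hK
  set B : ℕ := (Δ + 2) ^ 2 with hB
  have hBpos : (0 : ℝ) < (B : ℝ) := by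
    rw [hB]
    positivity
  set p0 : ℝ := ζ / (8 * ((K : ℝ) + 1) * (B : ℝ)) with hp0
  have hp0pos : 0 < p0 := by positivity
  set η : ℝ := p0 / (8 * ((Δ : ℝ) + 2) * ((K : ℝ) + 1)) with hη
  have hηpos : 0 < η := by positivity
  refine ⟨η, ζ / 2, ⌈8 * (K : ℝ) * (B : ℝ) / ζ⌉₊ + 1, hηpos, by positivity, ?_⟩
  intro n hn T hT V _ hV D W hW hWc Rel hR1 hR2 Sp P f κ hSP hPc hf hfa hfW hSpN hRel hcov hcount
  have hn1 : (1 : ℝ) ≤ (n : ℝ) := by
    have : 1 ≤ n := le_trans (Nat.le_add_left 1 _) hn
    exact_mod_cast this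
  have hnK : 8 * (K : ℝ) * (B : ℝ) ≤ ζ * (n : ℝ) := by
    have h1 : 8 * (K : ℝ) * (B : ℝ) / ζ ≤ (n : ℝ) := by
      have h2 := Nat.le_ceil (8 * (K : ℝ) * (B : ℝ) / ζ)
      have h3 : ((⌈8 * (K : ℝ) * (B : ℝ) / ζ⌉₊ : ℕ) : ℝ) ≤ (n : ℝ) := by
        exact_mod_cast (Nat.le_succ _).trans hn
      linarith
    rw [div_le_iff₀ hζ] at h1
    linarith
  set φ : ℕ := ⌈p0 * (n : ℝ)⌉₊ with hφ
  have hφ1 : p0 * (n : ℝ) ≤ (φ : ℝ) := Nat.le_ceil _
  have hφ2 : (φ : ℝ) < p0 * (n : ℝ) + 1 := Nat.ceil_lt_add_one (by positivity)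
  -- separated set
  have hC : ∀ k, Fintype.card I * φ * (Δ + 2) ^ 2 <
      (univ.filter fun y => y ∉ P ∧ κ y = k).card := by
    intro k
    rw [hcount k, ← hK, ← hB]
    have h1 : (W k).card ≤ (W k \ P.image f).card + (P.image f).card :=
      card_le_card_sdiff_add_card
    have h2 : (P.image f).card ≤ P.card := card_image_le
    have h3 : ((W k).card : ℝ) ≤ ((W k \ P.image f).card : ℝ) + (P.card : ℝ) := by
      exact_mod_cast h1.trans (Nat.add_le_add_left h2 _)
    have h4 := hWc k
    have h5 : ((K * φ * B : ℕ) : ℝ) < ((W k \ P.image f).card : ℝ) := by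
      push_cast
      have h6 : (K : ℝ) * (φ : ℝ) * (B : ℝ) ≤ (K : ℝ) * (p0 * (n : ℝ) + 1) * (B : ℝ) := by
        have := hφ2.le
        gcongr
      have h7 : (K : ℝ) * (p0 * (n : ℝ)) * (B : ℝ) ≤ ζ * (n : ℝ) / 8 := by
        rw [hp0]
        have hK0 : (0 : ℝ) ≤ (K : ℝ) := Nat.cast_nonneg _
        have : (K : ℝ) * (ζ / (8 * ((K : ℝ) + 1) * (B : ℝ)) * (n : ℝ)) * (B : ℝ) =
            ((K : ℝ) / ((K : ℝ) + 1)) * (ζ * (n : ℝ) / 8) := by
          field_simp
        rw [this]
        have h8 : (K : ℝ) / ((K : ℝ) + 1) ≤ 1 := by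
          rw [div_le_one (by positivity)]
          linarith
        exact mul_le_of_le_one_left (by positivity) h8
      have h9 : (K : ℝ) * (p0 * (n : ℝ) + 1) * (B : ℝ) =
          (K : ℝ) * (p0 * (n : ℝ)) * (B : ℝ) + (K : ℝ) * (B : ℝ) := by ring
      have h10 : 0 < ζ * (n : ℝ) := by positivity
      linarith
    exact_mod_cast h5
  obtain ⟨F, hFP, hsep, hFk⟩ := metA_sep T hT κ P φ hC
  have hFS : ∀ x ∈ F, x ∉ Sp := fun x hx h => hFP x hx (hSP h)
  -- constants
  have hD2 : (0 : ℝ) < (Δ : ℝ) + 2 := by positivity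
  have hK1 : (0 : ℝ) < (K : ℝ) + 1 := by positivity
  have hK0 : (0 : ℝ) ≤ (K : ℝ) := Nat.cast_nonneg _
  have hb1 : 2 * (((Δ : ℝ) + 2) * (2 * η * (n : ℝ))) < (φ : ℝ) := by
    refine lt_of_lt_of_le ?_ hφ1
    have h1 : 2 * (((Δ : ℝ) + 2) * (2 * η * (n : ℝ))) = p0 * (n : ℝ) * (1 / (2 * ((K : ℝ) + 1))) := by
      rw [hη]
      field_simp
      ring
    rw [h1]
    have h2 : 1 / (2 * ((K : ℝ) + 1)) < 1 := by
      rw [div_lt_one (by positivity)]
      linarith
    exact mul_lt_of_lt_one_right (by positivity) h2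
  have hb2 : 2 * (2 * (Fintype.card I : ℝ) * η * (n : ℝ)) < (φ : ℝ) := by
    refine lt_of_lt_of_le ?_ hφ1
    rw [← hK]
    have h1 : 2 * (2 * (K : ℝ) * η * (n : ℝ)) = p0 * (n : ℝ) * (((K : ℝ) / ((K : ℝ) + 1)) *
        (1 / (2 * ((Δ : ℝ) + 2)))) := by
      rw [hη]
      field_simp
      ring
    rw [h1]
    have h2 : (K : ℝ) / ((K : ℝ) + 1) ≤ 1 := by
      rw [div_le_one (by positivity)]
      linarith
    have h2' : 0 ≤ (K : ℝ) / ((K : ℝ) + 1) := by positivity
    have h3 : 1 / (2 * ((Δ : ℝ) + 2)) < 1 := by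
      rw [div_lt_one (by positivity)]
      have : (0 : ℝ) ≤ (Δ : ℝ) := Nat.cast_nonneg _
      linarith
    have h3' : 0 < 1 / (2 * ((Δ : ℝ) + 2)) := by positivity
    have h4 : (K : ℝ) / ((K : ℝ) + 1) * (1 / (2 * ((Δ : ℝ) + 2))) < 1 := by nlinarith
    exact mul_lt_of_lt_one_right (by positivity) h4
  have hb0 : ((Δ : ℝ) + 2) * (2 * η * (n : ℝ)) < (φ : ℝ) := by
    have : 0 ≤ ((Δ : ℝ) + 2) * (2 * η * (n : ℝ)) := by positivity
    linarith
  -- greedy
  obtain ⟨g, g1, g2, g3, g4, g5⟩ := metA_greedy hT hW hηpos.le hR1 hR2 hSP hf hfa hfW hSpN hRel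
    hcount (metA_loop T) φ hFk hb0 (univ.filter fun x => x ∉ P ∧ x ∉ F)
    (fun x hx => (mem_filter.1 hx).2.1) (fun x hx => (mem_filter.1 hx).2.2) hFP
  set Q : Finset (Fin n) := P ∪ (univ.filter fun x => x ∉ P ∧ x ∉ F) with hQ
  have hQF : ∀ x, x ∈ Q ↔ x ∉ F := by
    intro x
    rw [hQ, mem_union, mem_filter]
    constructor
    · rintro (h | h)
      · exact fun hx => hFP x hx h
      · exact h.2.2
    · intro h
      by_cases hx : x ∈ P
      · exact Or.inl hx
      · exact Or.inr ⟨mem_univ _, hx, h⟩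
  have hU : ∀ k, (W k \ Q.image g).card = φ := by
    intro k
    rw [← g5 k, ← hFk k]
    congr 1
    ext x
    simp only [mem_filter, mem_univ, true_and]
    rw [hQF, not_not]
  have hSpN' : ∀ x ∈ Sp, ∀ y, T.Nb x y → y ∉ F := fun x hx y hxy hy =>
    hFP y hy (hSpN x hx y hxy)
  have hhall := fun k => metA_hall hT hηpos.le hR1 hR2 hQF hFS g1 g3 hSpN' hRel hsep φ k
    (hFk k) (hU k) hb1 hb2
  choose h h1 h2 using hhall
  refine ⟨fun x => if x ∈ F then h (κ x) x else g x, ?_, ?_⟩
  · intro x y hxy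
    simp only at hxy
    by_cases hx : x ∈ F
    · rw [if_pos hx] at hxy
      by_cases hy : y ∈ F
      · rw [if_pos hy] at hxy
        by_cases hk : κ x = κ y
        · rw [← hk] at hxy
          exact h2 (κ x) x hx y hy rfl hk.symm hxy
        · exfalso
          have e1 := (mem_sdiff.1 (h1 (κ x) x hx rfl).1).1
          have e2 := (mem_sdiff.1 (h1 (κ y) y hy rfl).1).1
          rw [hxy] at e1
          exact Finset.disjoint_left.1 (hW _ _ hk) e1 e2
      · rw [if_neg hy] at hxy
        exfalso
        apply (mem_sdiff.1 (h1 (κ x) x hx rfl).1).2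
        rw [hxy]
        exact mem_image_of_mem _ ((hQF y).2 hy)
    · rw [if_neg hx] at hxy
      by_cases hy : y ∈ F
      · rw [if_pos hy] at hxy
        exfalso
        apply (mem_sdiff.1 (h1 (κ y) y hy rfl).1).2
        rw [← hxy]
        exact mem_image_of_mem _ ((hQF x).2 hx)
      · rw [if_neg hy] at hxy
        exact g1 ((hQF x).2 hx) ((hQF y).2 hy) hxy
  · have key : ∀ x y, T.Arc x y → D (if x ∈ F then h (κ x) x else g x)
        (if y ∈ F then h (κ y) y else g y) := by
      intro x y hxy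
      have hne : x ≠ y := by
        rintro rfl
        exact metA_loop T x hxy
      by_cases hx : x ∈ F
      · rw [if_pos hx]
        by_cases hy : y ∈ F
        · exfalso
          exact hsep x hx y hy hne (PTree.ball_mono T (by norm_num) x
            (metA_nb_of_arc hxy).mem_ball)
        · rw [if_neg hy]
          exact ((h1 (κ x) x hx rfl).2 y ((hQF y).2 hy)).2 hxy
      · rw [if_neg hx]
        by_cases hy : y ∈ F
        · rw [if_pos hy]
          exact ((h1 (κ y) y hy rfl).2 x ((hQF x).2 hx)).1 hxy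
        · rw [if_neg hy]
          exact g2 x ((hQF x).2 hx) y ((hQF y).2 hy) hxy
    intro i hi
    unfold Adj
    cases hsg : T.sg i with
    | true =>
      simp only [if_true]
      exact key (T.par i) i (Or.inl ⟨hi, rfl, hsg⟩)
    | false =>
      simp only [Bool.false_eq_true, if_false]
      exact key i (T.par i) (Or.inr ⟨hi, rfl, hsg⟩)

end

end OT
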